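import Pool.Agent.N206.CG.Stm2

/-!
Project CG (helper206), leaf CNT: counting the normal subgroups of `D 0` (helper713)
-/

set_option autoImplicit false

namespace Pool.Agent.N713.CG

open Pool.Agent.N206.CG

variable {L : Loc} (S : Sys L)

open Classical in
/-- the normal subgroup given by the level and the local action -/
noncomputable def gg (l : ℕ) (R : Subgroup (Equiv.Perm (L.E l))) : Subgroup (S.D 0) :=
  if h : ∃ N, S.IsN l R 0 N then h.choose else ⊥

theorem gg_eq {I : ℕ → ℕ} (hI : NRules S I) {l : ℕ} {R : Subgroup (Equiv.Perm (L.E l))}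
    {N : Subgroup (S.D 0)} (h : S.IsN l R 0 N) : gg S l R = N := by
  have h1 : ∃ N, S.IsN l R 0 N := ⟨N, h⟩
  unfold gg
  rw [dif_pos h1]
  exact hI.uni l R _ _ h1.choose_spec h

theorem t_CNT {L : Loc} (S : Sys L) (h1 : S_NR S) (h2 : S_CLS S) (h3 : Infinite (S.D 0)) :
    S_CNT S := by
  obtain ⟨I, hI⟩ := h1
  have hne : ∀ N : Subgroup (S.D 0), N.index ≠ 0 → N ≠ ⊥ := by
    rintro N hN rfl
    apply hN
    rw [Subgroup.index_bot]
    exact Nat.card_eq_zero_of_infinite
  have hcls : ∀ N : Subgroup (S.D 0), N.Normal → N.index ≠ 0 → ∃ l R, S.IsN l R 0 N ∧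
      R ≤ L.P l ∧ R ≠ ⊥ ∧ (∀ g ∈ L.P l, ∀ r ∈ R, g * r * g⁻¹ ∈ R) ∧ I l ≤ N.index := by
    intro N hN hi
    obtain ⟨l, R, e1, e2, e3, e4⟩ := h2 0 N hN (hne N hi)
    exact ⟨l, R, e1, e2, e3, e4, (hI.idx l R N e2 e3 e4 e1).2.1⟩
  have hfin : ∀ n, {N : Subgroup (S.D 0) | N.Normal ∧ N.index ≠ 0 ∧ N.index ≤ n}.Finite := by
    intro n
    have hf : (⋃ l ∈ Finset.range (n + 1), Set.range (gg S l)).Finite := by
      apply Set.Finite.biUnion (Finset.finite_toSet _)
      intro l _
      exact Set.finite_range _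
    refine hf.subset ?_
    rintro N ⟨hN, hi, hn⟩
    obtain ⟨l, R, e1, e2, e3, e4, e5⟩ := hcls N hN hi
    have hl : l ≤ I l := hI.mono.le_apply
    simp only [Set.mem_iUnion]
    exact ⟨l, Finset.mem_range.2 (by omega), R, gg_eq S hI e1⟩
  refine ⟨I, hI.mono, hI.zero, hfin, ?_, ?_⟩
  · intro k n hk
    obtain ⟨F, hF, hc, hR⟩ := L.many k
    refine hc.trans ?_
    have key : ∀ R ∈ F, (gg S k R).Normal ∧ S.IsN k R 0 (gg S k R) := by
      intro R hRF
      obtain ⟨e1, e2, e3⟩ := hR R hRF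
      obtain ⟨N, hN, hN2⟩ := hI.exi k R e1 e3
      rw [gg_eq S hI hN2]
      exact ⟨hN, hN2⟩
    refine Set.ncard_le_ncard_of_injOn (gg S k) ?_ ?_ (hfin n)
    · intro R hRF
      obtain ⟨e1, e2, e3⟩ := hR R hRF
      obtain ⟨hN, hN2⟩ := key R hRF
      obtain ⟨f1, f2, f3⟩ := hI.idx k R _ e1 e2 e3 hN2
      exact ⟨hN, f1, f3.trans hk⟩
    · intro R hRF R' hRF' hEq
      have h4 := (key R hRF).2
      have h5 := (key R' hRF').2
      rw [hEq] at h4
      exact hI.inj k R R' _ (hR R hRF).1 (hR R' hRF').1 h4 h5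
  · intro k n hk
    choose F hF hc hR using L.few
    have hsub : {N : Subgroup (S.D 0) | N.Normal ∧ JInv S N ∧ N.index ≠ 0 ∧ N.index ≤ n} ⊆
        ⋃ l ∈ Finset.range (k + 1), gg S l '' F l := by
      rintro N ⟨hN, hJ, hi, hn⟩
      obtain ⟨l, R, e1, e2, e3, e4, e5⟩ := hcls N hN hi
      have hl : l < k + 1 := hI.mono.lt_iff_lt.1 (by omega)
      simp only [Set.mem_iUnion]
      exact ⟨l, Finset.mem_range.2 hl, R, hR l R e2 e3 e4 (hI.jinv l R N e2 e1 hJ), gg_eq S hI e1⟩
    have hfin2 : (⋃ l ∈ Finset.range (k + 1), gg S l '' F l).Finite := by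
      apply Set.Finite.biUnion (Finset.finite_toSet _)
      intro l _
      exact (hF l).image _
    refine (Set.ncard_le_ncard hsub hfin2).trans ?_
    have hbound : ∀ s : Finset ℕ, (⋃ l ∈ s, gg S l '' F l).ncard ≤ 4 * s.card := by
      intro s
      induction s using Finset.induction_on with
      | empty => simp
      | insert a s ha ih =>
        rw [Finset.set_biUnion_insert, Finset.card_insert_of_notMem ha]
        refine (Set.ncard_union_le _ _).trans ?_
        have h5 := (Set.ncard_image_le (f := gg S a) (hF a)).trans (hc a)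
        omega
    have h6 := hbound (Finset.range (k + 1))
    rwa [Finset.card_range] at h6

end Pool.Agent.N713.CG
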